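import Mathlib

/-!
# Two agents: SD-EF1 for the subjective utilities and EF1 for the common valuation

Order the goods by decreasing utility for agent 1 and cut the list into consecutive pairs; the same
for agent 2 (after adding worthless goods at the end of both lists). By Hall's theorem there is a
set `Z` which meets every pair of either list in exactly one good. Start with giving `Z` to agent 2
and go through the pairs of agent 1 from the top: for the element `z` of `Z` in the pair exchange the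
owners of the two goods of the pair of agent 2 which contains `z`. All the allocations obtained are
SD-EF1, and at the end the two bundles have been exchanged; hence the difference of their common
values changes its sign somewhere, and there one of the two consecutive allocations is EF1.
-/

set_option autoImplicit false
set_option linter.unusedSectionVars false

open Finset

namespace Pool.Agent.Results.MP_d51325_lc.TwoAgents

/-- the bundles `A i` form a partition of the goods -/
def IsAllocation {M : Type} {n : ℕ} (A : Fin n → Finset M) : Prop := ∀ g, ∃! i, g ∈ A i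

/-- EF1 with respect to the profile `w` of additive valuations -/
def EF1 {M : Type} [DecidableEq M] {n : ℕ} (w : Fin n → M → ℝ) (A : Fin n → Finset M) : Prop :=
  ∀ i j, A j = ∅ ∨ ∃ g ∈ A j, ∑ x ∈ (A j).erase g, w i x ≤ ∑ x ∈ A i, w i x

/-- SD-EF1 with respect to the profile `w` -/
def SDEF1 {M : Type} {n : ℕ} (w : Fin n → M → ℝ) (A : Fin n → Finset M) : Prop :=
  ∀ i j, ∀ g : M, ((A j).filter (fun x => w i g ≤ w i x)).card ≤
    ((A i).filter (fun x => w i g ≤ w i x)).card + 1

lemma sum_pairs (a : ℕ → ℤ) (t : ℕ) :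
    ∑ p ∈ range (2 * t), a p = ∑ i ∈ range t, (a (2 * i) + a (2 * i + 1)) := by
  induction t with
  | zero => simp
  | succ t ih =>
    rw [show 2 * (t + 1) = 2 * t + 1 + 1 by ring, sum_range_succ, sum_range_succ, ih,
      sum_range_succ]
    ring

/-- prefix sums -/
lemma prefix_ge (a : ℕ → ℤ) (ha : ∀ p, -1 ≤ a p)
    (h : ∀ t, 0 ≤ ∑ i ∈ range t, (a (2 * i) + a (2 * i + 1))) (t : ℕ) :
    -1 ≤ ∑ p ∈ range t, a p := by
  rcases Nat.even_or_odd' t with ⟨c, hc | hc⟩
  · rw [hc, sum_pairs]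
    linarith [h c]
  · rw [hc, sum_range_succ, sum_pairs]
    linarith [h c, ha (2 * c)]

section core

variable {G : Type} [Fintype G] [DecidableEq G] {k : ℕ}

/-- position -/
def pos (p : G ≃ Fin k × Fin 2) (g : G) : ℕ := (p g).2 + 2 * (p g).1

/-- the sequence of the values of `s` in the order of the positions -/
def seq (p : G ≃ Fin k × Fin 2) (s : G → ℤ) (q : ℕ) : ℤ :=
  if h : q / 2 < k then s (p.symm (⟨q / 2, h⟩, ⟨q % 2, Nat.mod_lt _ (by norm_num)⟩)) else 0

lemma sum_pos (p : G ≃ Fin k × Fin 2) (s : G → ℤ) (t : ℕ) :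
    ∑ g ∈ univ.filter (fun g => pos p g < t), s g = ∑ q ∈ range t, seq p s q := by
  have h1 : ∑ q ∈ range t, seq p s q = ∑ q ∈ (range t).filter (fun q => q / 2 < k), seq p s q := by
    rw [sum_filter]
    refine sum_congr rfl fun q _ => ?_
    unfold seq
    split_ifs <;> rfl
  rw [h1]
  refine sum_bij (fun g _ => pos p g) ?_ ?_ ?_ ?_
  · intro g hg
    rw [mem_filter] at hg
    rw [mem_filter, mem_range]
    refine ⟨hg.2, ?_⟩
    have h2 := (p g).1.2
    have h3 := (p g).2.2
    unfold pos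
    omega
  · intro g _ g' _ h
    apply p.injective
    unfold pos at h
    have h3 := (p g).2.2
    have h3' := (p g').2.2
    ext
    · show ((p g).1 : ℕ) = (p g').1
      omega
    · show ((p g).2 : ℕ) = (p g').2
      omega
  · intro q hq
    rw [mem_filter, mem_range] at hq
    refine ⟨p.symm (⟨q / 2, hq.2⟩, ⟨q % 2, Nat.mod_lt _ (by norm_num)⟩), ?_, ?_⟩
    · rw [mem_filter]
      refine ⟨mem_univ _, ?_⟩
      simp only [pos, Equiv.apply_symm_apply]
      omega
    · simp only [pos, Equiv.apply_symm_apply]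
      omega
  · intro g hg
    unfold seq
    have h2 := (p g).1.2
    have h3 := (p g).2.2
    have h4 : pos p g / 2 = (p g).1 := by unfold pos; omega
    have h5 : pos p g % 2 = (p g).2 := by unfold pos; omega
    rw [dif_pos (by rw [h4]; exact h2)]
    congr 1
    rw [Equiv.eq_symm_apply]
    ext
    · exact h4.symm
    · exact h5.symm

lemma seq_even (p : G ≃ Fin k × Fin 2) (s : G → ℤ) (i : ℕ) (hi : i < k) :
    seq p s (2 * i) + seq p s (2 * i + 1) = s (p.symm (⟨i, hi⟩, 0)) + s (p.symm (⟨i, hi⟩, 1)) := by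
  unfold seq
  have h1 : 2 * i / 2 = i := by omega
  have h2 : (2 * i + 1) / 2 = i := by omega
  have h3 : 2 * i % 2 = 0 := by omega
  have h4 : (2 * i + 1) % 2 = 1 := by omega
  simp only [h1, h2, h3, h4, hi, dif_pos]
  rfl

lemma seq_big (p : G ≃ Fin k × Fin 2) (s : G → ℤ) (i : ℕ) (hi : ¬ i < k) :
    seq p s (2 * i) + seq p s (2 * i + 1) = 0 := by
  unfold seq
  have h1 : 2 * i / 2 = i := by omega
  have h2 : (2 * i + 1) / 2 = i := by omega
  simp only [h1, h2, hi, dif_neg, not_false_eq_true]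
  rfl

lemma seq_ge (p : G ≃ Fin k × Fin 2) (s : G → ℤ) (hs : ∀ g, -1 ≤ s g) (q : ℕ) :
    -1 ≤ seq p s q := by
  unfold seq
  split_ifs
  · exact hs _
  · norm_num

/-- Hall: a good of each pair of the first list, in different pairs of the second list -/
lemma hall (p₁ p₂ : G ≃ Fin k × Fin 2) :
    ∃ z : Fin k → G, (∀ i, (p₁ (z i)).1 = i) ∧ Function.Injective (fun i => (p₂ (z i)).1) := by
  classical
  let T : Fin k → Finset (Fin k) := fun i =>
    (univ.filter (fun g : G => (p₁ g).1 = i)).image (fun g => (p₂ g).1)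
  have hc : ∀ (p : G ≃ Fin k × Fin 2) (s : Finset (Fin k)),
      (univ.filter (fun g : G => (p g).1 ∈ s)).card = 2 * s.card := by
    intro p s
    have : (univ.filter (fun g : G => (p g).1 ∈ s)).map p.toEmbedding = s ×ˢ univ := by
      ext x
      simp only [mem_map_equiv, mem_filter, mem_univ, true_and, Equiv.apply_symm_apply,
        mem_product, and_true]
    rw [← card_map p.toEmbedding, this, card_product]
    simp [mul_comm]
  have key : ∀ s : Finset (Fin k), s.card ≤ (s.biUnion T).card := by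
    intro s
    have h1 : (univ.filter (fun g : G => (p₁ g).1 ∈ s)) ⊆
        (univ.filter (fun g : G => (p₂ g).1 ∈ s.biUnion T)) := by
      intro g hg
      rw [mem_filter] at hg ⊢
      refine ⟨mem_univ _, mem_biUnion.2 ⟨(p₁ g).1, hg.2, mem_image.2 ⟨g, ?_, rfl⟩⟩⟩
      exact mem_filter.2 ⟨mem_univ _, rfl⟩
    have h2 := card_le_card h1
    rw [hc, hc] at h2
    omega
  obtain ⟨f, hf, hfT⟩ := (Finset.all_card_le_biUnion_card_iff_exists_injective T).1 key
  have hz : ∀ i, ∃ g : G, (p₁ g).1 = i ∧ (p₂ g).1 = f i := by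
    intro i
    obtain ⟨g, hg, hg'⟩ := mem_image.1 (hfT i)
    exact ⟨g, (mem_filter.1 hg).2, hg'⟩
  choose z hz1 hz2 using hz
  refine ⟨z, hz1, ?_⟩
  intro i j hij
  simp only [hz2] at hij
  exact hf hij

lemma inZ_iff (p : G ≃ Fin k × Fin 2) (z : Fin k → G)
    (hz : Function.Injective (fun i => (p (z i)).1)) (i : Fin k) (c : Fin 2) :
    (∃ i', z i' = p.symm ((p (z i)).1, c)) ↔ c = (p (z i)).2 := by
  constructor
  · rintro ⟨i', h⟩
    have h1 : p (z i') = ((p (z i)).1, c) := by rw [h, Equiv.apply_symm_apply]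
    have h2 : i' = i := hz (by show (p (z i')).1 = (p (z i)).1; rw [h1])
    subst h2
    rw [h1]
  · intro h
    refine ⟨i, ?_⟩
    rw [Equiv.eq_symm_apply, h]

lemma pair_sum (p : G ≃ Fin k × Fin 2) (s : G → ℤ) (g : G) :
    s (p.symm ((p g).1, 0)) + s (p.symm ((p g).1, 1)) = s g + s (p.symm ((p g).1, 1 + (p g).2)) := by
  have hg : p.symm ((p g).1, (p g).2) = g := by
    rw [Equiv.symm_apply_eq]
  have h2 : (p g).2 = 0 ∨ (p g).2 = 1 := by
    have := (p g).2
    generalize (p g).2 = c
    fin_cases c <;> simp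
  rcases h2 with h2 | h2
  · rw [h2] at hg ⊢
    rw [hg]
    rfl
  · rw [h2] at hg ⊢
    rw [hg]
    have : (1 + 1 : Fin 2) = 0 := rfl
    rw [this, add_comm]

lemma seq_nonneg_sum (p : G ≃ Fin k × Fin 2) (s : G → ℤ) (t : ℕ) :
    ∑ i ∈ range t, (seq p s (2 * i) + seq p s (2 * i + 1)) =
      ∑ i ∈ univ.filter (fun i : Fin k => (i : ℕ) < t),
        (s (p.symm (i, 0)) + s (p.symm (i, 1))) := by
  have h1 : ∑ i ∈ range t, (seq p s (2 * i) + seq p s (2 * i + 1)) =
      ∑ i ∈ (range t).filter (fun q => q < k), (seq p s (2 * i) + seq p s (2 * i + 1)) := by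
    rw [sum_filter]
    refine sum_congr rfl fun q _ => ?_
    split_ifs with h
    · rfl
    · exact seq_big p s q h
  rw [h1]
  symm
  refine sum_bij (fun i _ => (i : ℕ)) ?_ ?_ ?_ ?_
  · intro i hi
    rw [mem_filter] at hi
    rw [mem_filter, mem_range]
    exact ⟨hi.2, i.2⟩
  · intro i _ i' _ h
    exact Fin.ext h
  · intro q hq
    rw [mem_filter, mem_range] at hq
    exact ⟨⟨q, hq.2⟩, by rw [mem_filter]; exact ⟨mem_univ _, hq.1⟩, rfl⟩
  · intro i _
    exact (seq_even p s i i.2).symm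

/-- a sign change -/
lemma sign_change (δ : ℕ → ℝ) (k : ℕ) (h : δ k = -δ 0) :
    δ 0 = 0 ∨ ∃ j < k, (0 ≤ δ j ∧ δ (j + 1) ≤ 0) ∨ (δ j ≤ 0 ∧ 0 ≤ δ (j + 1)) := by
  classical
  rcases lt_trichotomy (δ 0) 0 with h0 | h0 | h0
  · right
    have hex : ∃ n, 0 ≤ δ n := ⟨k, by rw [h]; linarith⟩
    have h1 := Nat.find_spec hex
    have h2 : Nat.find hex ≤ k := Nat.find_min' hex (by rw [h]; linarith)
    have h3 : Nat.find hex ≠ 0 := by
      intro h4
      rw [h4] at h1
      linarith
    obtain ⟨j, hj⟩ := Nat.exists_eq_succ_of_ne_zero h3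
    rw [hj] at h1 h2
    refine ⟨j, h2, Or.inr ⟨?_, h1⟩⟩
    have h5 := Nat.find_min hex (m := j) (by omega)
    exact (not_le.1 h5).le
  · left
    exact h0
  · right
    have hex : ∃ n, δ n ≤ 0 := ⟨k, by rw [h]; linarith⟩
    have h1 := Nat.find_spec hex
    have h2 : Nat.find hex ≤ k := Nat.find_min' hex (by rw [h]; linarith)
    have h3 : Nat.find hex ≠ 0 := by
      intro h4
      rw [h4] at h1
      linarith
    obtain ⟨j, hj⟩ := Nat.exists_eq_succ_of_ne_zero h3
    rw [hj] at h1 h2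
    refine ⟨j, h2, Or.inl ⟨?_, h1⟩⟩
    have h5 := Nat.find_min hex (m := j) (by omega)
    exact (not_le.1 h5).le

/-- the core -/
lemma core (p₁ p₂ : G ≃ Fin k × Fin 2) (v : G → ℝ) (hv : ∀ g, 0 ≤ v g) :
    ∃ s : G → ℤ, (∀ g, s g = 1 ∨ s g = -1) ∧
      (∀ t, -1 ≤ ∑ g ∈ univ.filter (fun g => pos p₁ g < t), s g) ∧
      (∀ t, ∑ g ∈ univ.filter (fun g => pos p₂ g < t), s g ≤ 1) ∧
      (∑ g, (s g : ℝ) * v g ≤ 0 ∨ ∃ h, s h = 1 ∧ ∑ g, (s g : ℝ) * v g ≤ v h) ∧
      (0 ≤ ∑ g, (s g : ℝ) * v g ∨ ∃ h, s h = -1 ∧ -∑ g, (s g : ℝ) * v g ≤ v h) := by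
  classical
  obtain ⟨z, hz1, hz2⟩ := hall p₁ p₂
  have hz1' : Function.Injective (fun i => (p₁ (z i)).1) := by
    intro i i' h
    simpa only [hz1] using h
  have hbij : Function.Bijective (fun i => (p₂ (z i)).1) := Finite.injective_iff_bijective.1 hz2
  let f : Fin k ≃ Fin k := Equiv.ofBijective _ hbij
  have hf : ∀ i, f i = (p₂ (z i)).1 := fun i => rfl
  let inZ : G → Prop := fun g => ∃ i, z i = g
  let blk : G → Fin k := fun g => f.symm (p₂ g).1
  have hblk : ∀ g, f (blk g) = (p₂ g).1 := fun g => Equiv.apply_symm_apply _ _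
  have hblkz : ∀ i, blk (z i) = i := by
    intro i
    show f.symm (p₂ (z i)).1 = i
    rw [← hf, Equiv.symm_apply_apply]
  let s : ℕ → G → ℤ := fun j g => if (inZ g ↔ ((blk g : Fin k) : ℕ) < j) then 1 else -1
  have hs : ∀ j g, s j g = 1 ∨ s j g = -1 := by
    intro j g
    show (if _ then (1 : ℤ) else -1) = 1 ∨ (if _ then (1 : ℤ) else -1) = -1
    split_ifs
    · left; rfl
    · right; rfl
  have hsz : ∀ j g, inZ g → s j g = if ((blk g : Fin k) : ℕ) < j then 1 else -1 := by
    intro j g hg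
    show (if (inZ g ↔ ((blk g : Fin k) : ℕ) < j) then (1 : ℤ) else -1) = _
    simp only [hg, true_iff]
  have hsn : ∀ j g, ¬ inZ g → s j g = if ((blk g : Fin k) : ℕ) < j then -1 else 1 := by
    intro j g hg
    show (if (inZ g ↔ ((blk g : Fin k) : ℕ) < j) then (1 : ℤ) else -1) = _
    simp only [hg, false_iff]
    split_ifs <;> first | rfl | (exfalso; tauto)
  have hc2 : ∀ c : Fin 2, 1 + c ≠ c := by decide
  -- partners
  let w₁ : Fin k → G := fun i => p₁.symm ((p₁ (z i)).1, 1 + (p₁ (z i)).2)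
  let w₂ : Fin k → G := fun i => p₂.symm ((p₂ (z i)).1, 1 + (p₂ (z i)).2)
  have hw1 : ∀ i, ¬ inZ (w₁ i) := by
    intro i hi
    exact hc2 _ ((inZ_iff p₁ z hz1' i _).1 hi)
  have hw2 : ∀ i, ¬ inZ (w₂ i) := by
    intro i hi
    exact hc2 _ ((inZ_iff p₂ z hz2 i _).1 hi)
  have hblkw2 : ∀ i, blk (w₂ i) = i := by
    intro i
    show f.symm (p₂ (p₂.symm ((p₂ (z i)).1, 1 + (p₂ (z i)).2))).1 = i
    rw [Equiv.apply_symm_apply, ← hf, Equiv.symm_apply_apply]
  -- a good which is not in Z is the partner of the element of Z in its block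
  have hclass : ∀ g, g = z (blk g) ∨ g = w₂ (blk g) := by
    intro g
    have h1 : (p₂ (z (blk g))).1 = (p₂ g).1 := by rw [← hf, hblk]
    have h2 : ∀ c d : Fin 2, c = d ∨ c = 1 + d := by decide
    rcases h2 (p₂ g).2 (p₂ (z (blk g))).2 with h3 | h3
    · left
      apply p₂.injective
      exact Prod.ext h1.symm h3
    · right
      show g = p₂.symm ((p₂ (z (blk g))).1, 1 + (p₂ (z (blk g))).2)
      rw [Equiv.eq_symm_apply]
      exact Prod.ext h1.symm h3
  have hinj : Function.Injective (fun i => blk (w₁ i)) := by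
    intro i i' h
    simp only at h
    have h1 : w₁ i = w₂ (blk (w₁ i)) := by
      rcases hclass (w₁ i) with h2 | h2
      · exact absurd ⟨_, h2.symm⟩ (hw1 i)
      · exact h2
    have h1' : w₁ i' = w₂ (blk (w₁ i')) := by
      rcases hclass (w₁ i') with h2 | h2
      · exact absurd ⟨_, h2.symm⟩ (hw1 i')
      · exact h2
    have h3 : w₁ i = w₁ i' := by rw [h1, h1', h]
    have h4 : (p₁ (w₁ i)).1 = (p₁ (w₁ i')).1 := by rw [h3]
    have h5 : ∀ i, (p₁ (w₁ i)).1 = i := by
      intro i
      show (p₁ (p₁.symm ((p₁ (z i)).1, 1 + (p₁ (z i)).2))).1 = i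
      rw [Equiv.apply_symm_apply, hz1]
    rwa [h5, h5] at h4
  -- agent 2
  have hA2 : ∀ j t, ∑ g ∈ univ.filter (fun g => pos p₂ g < t), s j g ≤ 1 := by
    intro j t
    have h1 : -1 ≤ ∑ q ∈ range t, seq p₂ (fun g => -s j g) q := by
      apply prefix_ge
      · apply seq_ge
        intro g
        rcases hs j g with h | h <;> rw [h] <;> norm_num
      · intro t'
        rw [seq_nonneg_sum]
        apply sum_nonneg
        intro b _
        obtain ⟨i, hi⟩ := hbij.2 b
        simp only at hi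
        have h2 := pair_sum p₂ (fun g => -s j g) (z i)
        rw [hi] at h2
        rw [h2]
        have h3 : p₂.symm (b, 1 + (p₂ (z i)).2) = w₂ i := by
          show _ = p₂.symm ((p₂ (z i)).1, 1 + (p₂ (z i)).2)
          rw [hi]
        rw [h3, hsz j (z i) ⟨i, rfl⟩, hsn j (w₂ i) (hw2 i), hblkz, hblkw2]
        split_ifs <;> norm_num
    rw [← sum_pos, sum_neg_distrib] at h1
    linarith
  -- agent 1
  have hA1 : ∀ j t, -1 ≤ ∑ g ∈ univ.filter (fun g => pos p₁ g < t), s j g := by
    intro j t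
    rw [sum_pos]
    apply prefix_ge
    · apply seq_ge
      intro g
      rcases hs j g with h | h <;> rw [h] <;> norm_num
    · intro t'
      rw [seq_nonneg_sum]
      have h1 : ∀ i : Fin k, s j (p₁.symm (i, 0)) + s j (p₁.symm (i, 1)) =
          2 * (if (i : ℕ) < j then (1 : ℤ) else 0) -
            2 * (if ((blk (w₁ i) : Fin k) : ℕ) < j then (1 : ℤ) else 0) := by
        intro i
        have h2 := pair_sum p₁ (s j) (z i)
        have h3 : p₁.symm ((p₁ (z i)).1, 1 + (p₁ (z i)).2) = w₁ i := rfl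
        rw [h3, hz1, hsz j (z i) ⟨i, rfl⟩, hsn j (w₁ i) (hw1 i), hblkz] at h2
        rw [h2]
        split_ifs <;> norm_num
      rw [sum_congr rfl (fun i _ => h1 i), sum_sub_distrib, ← mul_sum, ← mul_sum,
        ← sum_filter, ← sum_filter, sum_const, sum_const, nsmul_eq_mul, nsmul_eq_mul, mul_one,
        mul_one]
      have h4 : ((univ.filter (fun i : Fin k => (i : ℕ) < t')).filter
          (fun i : Fin k => ((blk (w₁ i) : Fin k) : ℕ) < j)).card ≤
          ((univ.filter (fun i : Fin k => (i : ℕ) < t')).filter (fun i : Fin k => (i : ℕ) < j)).card := by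
        rcases le_total t' j with h5 | h5
        · have h6 : (univ.filter (fun i : Fin k => (i : ℕ) < t')).filter (fun i : Fin k => (i : ℕ) < j) =
              univ.filter (fun i : Fin k => (i : ℕ) < t') := by
            ext i
            simp only [mem_filter, mem_univ, true_and]
            omega
          rw [h6]
          exact card_filter_le _ _
        · have h6 : (univ.filter (fun i : Fin k => (i : ℕ) < t')).filter (fun i : Fin k => (i : ℕ) < j) =
              univ.filter (fun i : Fin k => (i : ℕ) < j) := by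
            ext i
            simp only [mem_filter, mem_univ, true_and]
            omega
          rw [h6]
          apply card_le_card_of_injOn (fun i => blk (w₁ i))
          · intro i hi
            have hi' := (mem_filter.1 (Finset.mem_coe.1 hi)).2
            exact Finset.mem_coe.2 (mem_filter.2 ⟨mem_univ _, hi'⟩)
          · intro i _ i' _ h
            exact hinj h
      have h5 : (((univ.filter (fun i : Fin k => (i : ℕ) < t')).filter
          (fun i : Fin k => ((blk (w₁ i) : Fin k) : ℕ) < j)).card : ℤ) ≤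
          (((univ.filter (fun i : Fin k => (i : ℕ) < t')).filter (fun i : Fin k => (i : ℕ) < j)).card : ℤ) := by
        exact_mod_cast h4
      linarith
  -- the difference of the values
  let δ : ℕ → ℝ := fun j => ∑ g, (s j g : ℝ) * v g
  have hδ0 : δ k = -δ 0 := by
    show ∑ g, (s k g : ℝ) * v g = -∑ g, (s 0 g : ℝ) * v g
    rw [← sum_neg_distrib]
    refine sum_congr rfl fun g _ => ?_
    have h1 : s k g = - s 0 g := by
      by_cases hg : inZ g
      · rw [hsz k g hg, hsz 0 g hg, if_pos (blk g).2, if_neg (by omega)]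
        norm_num
      · rw [hsn k g hg, hsn 0 g hg, if_pos (blk g).2, if_neg (by omega)]
    rw [h1]
    push_cast
    ring
  have hstep : ∀ j (hj : j < k), δ (j + 1) = δ j + 2 * v (z ⟨j, hj⟩) - 2 * v (w₂ ⟨j, hj⟩) := by
    intro j hj
    have h1 : δ (j + 1) - δ j = ∑ g, ((s (j + 1) g : ℝ) - (s j g : ℝ)) * v g := by
      show ∑ g, (s (j + 1) g : ℝ) * v g - ∑ g, (s j g : ℝ) * v g = _
      rw [← sum_sub_distrib]
      refine sum_congr rfl fun g _ => ?_
      ring
    have hne : z ⟨j, hj⟩ ≠ w₂ ⟨j, hj⟩ := by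
      intro h
      exact hw2 ⟨j, hj⟩ ⟨_, h⟩
    have h2 : ∑ g, ((s (j + 1) g : ℝ) - (s j g : ℝ)) * v g =
        ((s (j + 1) (z ⟨j, hj⟩) : ℝ) - (s j (z ⟨j, hj⟩) : ℝ)) * v (z ⟨j, hj⟩) +
        ((s (j + 1) (w₂ ⟨j, hj⟩) : ℝ) - (s j (w₂ ⟨j, hj⟩) : ℝ)) * v (w₂ ⟨j, hj⟩) := by
      apply Fintype.sum_eq_add _ _ hne
      rintro g ⟨hg1, hg2⟩
      have h3 : (blk g : ℕ) ≠ j := by
        intro h4
        have h5 : blk g = ⟨j, hj⟩ := Fin.ext h4
        rcases hclass g with h6 | h6
        · rw [h5] at h6; exact hg1 h6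
        · rw [h5] at h6; exact hg2 h6
      have h4 : s (j + 1) g = s j g := by
        have h5 : ((blk g : Fin k) : ℕ) < j + 1 ↔ ((blk g : Fin k) : ℕ) < j := by omega
        show (if (inZ g ↔ ((blk g : Fin k) : ℕ) < j + 1) then (1 : ℤ) else -1) =
          (if (inZ g ↔ ((blk g : Fin k) : ℕ) < j) then (1 : ℤ) else -1)
        simp only [h5]
      rw [h4]
      ring
    have h3 : s (j + 1) (z ⟨j, hj⟩) = 1 := by
      rw [hsz _ _ ⟨_, rfl⟩, hblkz, if_pos (by simp)]
    have h4 : s j (z ⟨j, hj⟩) = -1 := by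
      rw [hsz _ _ ⟨_, rfl⟩, hblkz, if_neg (by simp)]
    have h5 : s (j + 1) (w₂ ⟨j, hj⟩) = -1 := by
      rw [hsn _ _ (hw2 _), hblkw2, if_pos (by simp)]
    have h6 : s j (w₂ ⟨j, hj⟩) = 1 := by
      rw [hsn _ _ (hw2 _), hblkw2, if_neg (by simp)]
    rw [h3, h4, h5, h6] at h2
    push_cast at h2
    linarith
  rcases sign_change δ k hδ0 with h0 | ⟨j, hj, h | h⟩
  · refine ⟨s 0, hs 0, hA1 0, hA2 0, Or.inl ?_, Or.inl ?_⟩
    · exact h0.le
    · exact h0.ge
  · have h3 := hstep j hj
    have h4 : s j (w₂ ⟨j, hj⟩) = 1 := by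
      rw [hsn _ _ (hw2 _), hblkw2, if_neg (by simp)]
    have h5 : s (j + 1) (w₂ ⟨j, hj⟩) = -1 := by
      rw [hsn _ _ (hw2 _), hblkw2, if_pos (by simp)]
    by_cases h6 : δ j ≤ v (w₂ ⟨j, hj⟩)
    · exact ⟨s j, hs j, hA1 j, hA2 j, Or.inr ⟨_, h4, h6⟩, Or.inl h.1⟩
    · refine ⟨s (j + 1), hs _, hA1 _, hA2 _, Or.inl h.2, Or.inr ⟨_, h5, ?_⟩⟩
      show -δ (j + 1) ≤ _
      have := hv (z ⟨j, hj⟩)
      linarith [not_le.1 h6]
  · have h3 := hstep j hj
    have h4 : s j (z ⟨j, hj⟩) = -1 := by
      rw [hsz _ _ ⟨_, rfl⟩, hblkz, if_neg (by simp)]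
    have h5 : s (j + 1) (z ⟨j, hj⟩) = 1 := by
      rw [hsz _ _ ⟨_, rfl⟩, hblkz, if_pos (by simp)]
    by_cases h6 : -δ j ≤ v (z ⟨j, hj⟩)
    · exact ⟨s j, hs j, hA1 j, hA2 j, Or.inl h.1, Or.inr ⟨_, h4, h6⟩⟩
    · refine ⟨s (j + 1), hs _, hA1 _, hA2 _, Or.inr ⟨_, h5, ?_⟩, Or.inl h.2⟩
      show δ (j + 1) ≤ _
      have := hv (w₂ ⟨j, hj⟩)
      linarith [not_le.1 h6]

end core

/-- a list of the goods in decreasing order of `u` -/
lemma exists_order {M : Type} [Fintype M] (u : M → ℝ) :
    ∃ e : M ≃ Fin (Fintype.card M), ∀ x y, e x ≤ e y → u y ≤ u x := by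
  let e0 : M ≃ Fin (Fintype.card M) := Fintype.equivFin M
  let f : Fin (Fintype.card M) → ℝ := fun a => -u (e0.symm a)
  let σ := Tuple.sort f
  have hσ : Monotone (f ∘ σ) := Tuple.monotone_sort f
  refine ⟨e0.trans σ.symm, fun x y h => ?_⟩
  have h1 := hσ h
  have h2 : ∀ x, (f ∘ σ) ((e0.trans σ.symm) x) = -u x := by
    intro x
    simp [f]
  rw [h2, h2] at h1
  linarith

/-- the list of the goods and of the worthless goods, in pairs -/
def listing {M : Type} {m : ℕ} (e : M ≃ Fin m) : M ⊕ Fin m ≃ Fin m × Fin 2 :=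
  ((Equiv.sumCongr e (Equiv.refl (Fin m))).trans finSumFinEquiv).trans
    ((finCongr (by ring)).trans finProdFinEquiv.symm)

lemma pos_listing {M : Type} {m : ℕ} (e : M ≃ Fin m) (g : M ⊕ Fin m) :
    pos (listing e) g = ((finSumFinEquiv (Equiv.sumCongr e (Equiv.refl (Fin m)) g) : Fin (m + m)) : ℕ)
    := by
  have h : ∀ a : Fin (m * 2), ((finProdFinEquiv.symm a).2 : ℕ) + 2 * (finProdFinEquiv.symm a).1 = a := by
    intro a
    have h1 := finProdFinEquiv.apply_symm_apply a
    have h2 := congrArg Fin.val h1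
    rw [finProdFinEquiv_apply_val] at h2
    exact h2
  unfold pos listing
  rw [Equiv.trans_apply, Equiv.trans_apply, Equiv.trans_apply, h]
  rfl

lemma pos_inl {M : Type} {m : ℕ} (e : M ≃ Fin m) (x : M) : pos (listing e) (Sum.inl x) = e x := by
  rw [pos_listing]
  simp

lemma pos_inr {M : Type} {m : ℕ} (e : M ≃ Fin m) (c : Fin m) :
    m ≤ pos (listing e) (Sum.inr c) := by
  rw [pos_listing]
  simp

/-- the sum over an upper set is a prefix sum -/
lemma upper_sum {M : Type} [Fintype M] [DecidableEq M] (u : M → ℝ)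
    (e : M ≃ Fin (Fintype.card M)) (he : ∀ x y, e x ≤ e y → u y ≤ u x)
    (s : M ⊕ Fin (Fintype.card M) → ℤ) (r : ℝ) :
    ∃ t : ℕ, ∑ x ∈ univ.filter (fun x => r ≤ u x), s (Sum.inl x) =
      ∑ g ∈ univ.filter (fun g => pos (listing e) g < t), s g := by
  let t : ℕ := (univ.filter (fun x => r ≤ u x)).sup (fun x => (e x : ℕ) + 1)
  have ht : t ≤ Fintype.card M := by
    apply Finset.sup_le
    intro x _
    exact (e x).2
  refine ⟨t, ?_⟩
  refine sum_bij (fun x _ => Sum.inl x) ?_ ?_ ?_ ?_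
  · intro x hx
    rw [mem_filter]
    refine ⟨mem_univ _, ?_⟩
    rw [pos_inl]
    have := Finset.le_sup (f := fun x => (e x : ℕ) + 1) hx
    exact this
  · intro x _ x' _ h
    exact Sum.inl_injective h
  · intro g hg
    rw [mem_filter] at hg
    rcases g with x | c
    · refine ⟨x, ?_, rfl⟩
      have h1 := hg.2
      rw [pos_inl] at h1
      obtain ⟨y, hy, hxy⟩ := Finset.lt_sup_iff.1 h1
      rw [mem_filter] at hy ⊢
      refine ⟨mem_univ _, hy.2.trans (he x y ?_)⟩
      rw [Fin.le_def]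
      omega
    · have h1 := hg.2
      have h2 := pos_inr e c
      omega
  · intro x _
    rfl

lemma card_sub {M : Type} (s : M → ℤ) (hs : ∀ g, s g = 1 ∨ s g = -1) (T : Finset M) :
    ((T.filter (fun x => s x = 1)).card : ℤ) - ((T.filter (fun x => s x = -1)).card : ℤ) =
      ∑ x ∈ T, s x := by
  rw [card_filter, card_filter]
  push_cast
  rw [← sum_sub_distrib]
  refine sum_congr rfl fun x _ => ?_
  rcases hs x with h | h <;> rw [h] <;> norm_num

lemma val_sub {M : Type} (s : M → ℤ) (hs : ∀ g, s g = 1 ∨ s g = -1) (v : M → ℝ) (T : Finset M) :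
    ∑ x ∈ T.filter (fun x => s x = 1), v x - ∑ x ∈ T.filter (fun x => s x = -1), v x =
      ∑ x ∈ T, (s x : ℝ) * v x := by
  rw [sum_filter, sum_filter, ← sum_sub_distrib]
  refine sum_congr rfl fun x _ => ?_
  rcases hs x with h | h <;> rw [h] <;> norm_num

/-- **Two agents.** For all additive subjective utilities of two agents and every additive common
valuation there is an allocation which is SD-EF1 with respect to the subjective utilities and EF1
with respect to the common valuation. -/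
theorem result (M : Type) [Fintype M] [DecidableEq M] (u : Fin 2 → M → ℝ) (v : M → ℝ)
    (hv : ∀ g, 0 ≤ v g) :
    ∃ A : Fin 2 → Finset M, IsAllocation A ∧ SDEF1 u A ∧ EF1 (fun _ => v) A := by
  obtain ⟨e₁, he₁⟩ := exists_order (u 0)
  obtain ⟨e₂, he₂⟩ := exists_order (u 1)
  let v' : M ⊕ Fin (Fintype.card M) → ℝ := Sum.elim v (fun _ => 0)
  have hv' : ∀ g, 0 ≤ v' g := by
    rintro (x | c)
    · exact hv x
    · exact le_rfl
  obtain ⟨s, hs, h1, h2, h3, h4⟩ := core (listing e₁) (listing e₂) v' hv'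
  let σ : M → ℤ := fun x => s (Sum.inl x)
  have hσ : ∀ x, σ x = 1 ∨ σ x = -1 := fun x => hs _
  have hsum : ∑ g, (s g : ℝ) * v' g = ∑ x, (σ x : ℝ) * v x := by
    rw [Fintype.sum_sum_type]
    have : ∑ c : Fin (Fintype.card M), (s (Sum.inr c) : ℝ) * v' (Sum.inr c) = 0 := by
      apply sum_eq_zero
      intro c _
      show _ * (0 : ℝ) = 0
      ring
    rw [this, add_zero]
    rfl
  rw [hsum] at h3 h4
  rw [← val_sub σ hσ] at h3 h4
  -- the prefixes
  have hT1 : ∀ r, ((univ.filter (fun x => r ≤ u 0 x)).filter (fun x => σ x = -1)).card ≤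
      ((univ.filter (fun x => r ≤ u 0 x)).filter (fun x => σ x = 1)).card + 1 := by
    intro r
    obtain ⟨t, ht⟩ := upper_sum (u 0) e₁ he₁ s r
    have h5 := card_sub σ hσ (univ.filter (fun x => r ≤ u 0 x))
    have h6 : ∑ x ∈ univ.filter (fun x => r ≤ u 0 x), σ x =
      ∑ g ∈ univ.filter (fun g => pos (listing e₁) g < t), s g := ht
    have h7 := h1 t
    rw [← h6, ← h5] at h7
    omega
  have hT2 : ∀ r, ((univ.filter (fun x => r ≤ u 1 x)).filter (fun x => σ x = 1)).card ≤
      ((univ.filter (fun x => r ≤ u 1 x)).filter (fun x => σ x = -1)).card + 1 := by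
    intro r
    obtain ⟨t, ht⟩ := upper_sum (u 1) e₂ he₂ s r
    have h5 := card_sub σ hσ (univ.filter (fun x => r ≤ u 1 x))
    have h6 : ∑ x ∈ univ.filter (fun x => r ≤ u 1 x), σ x =
      ∑ g ∈ univ.filter (fun g => pos (listing e₂) g < t), s g := ht
    have h7 := h2 t
    rw [← h6, ← h5] at h7
    omega
  refine ⟨![univ.filter (fun x => σ x = 1), univ.filter (fun x => σ x = -1)], ?_, ?_, ?_⟩
  · intro g
    rcases hσ g with h | h
    · refine ⟨0, ?_, ?_⟩
      · show g ∈ univ.filter (fun x => σ x = 1)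
        exact mem_filter.2 ⟨mem_univ _, h⟩
      · intro i hi
        fin_cases i
        · rfl
        · have hi' : g ∈ univ.filter (fun x => σ x = -1) := hi
          have := (mem_filter.1 hi').2
          omega
    · refine ⟨1, ?_, ?_⟩
      · show g ∈ univ.filter (fun x => σ x = -1)
        exact mem_filter.2 ⟨mem_univ _, h⟩
      · intro i hi
        fin_cases i
        · have hi' : g ∈ univ.filter (fun x => σ x = 1) := hi
          have := (mem_filter.1 hi').2
          omega
        · rfl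
  · intro i j g
    fin_cases i <;> fin_cases j
    · exact Nat.le_succ _
    · show ((univ.filter (fun x => σ x = -1)).filter (fun x => u 0 g ≤ u 0 x)).card ≤
        ((univ.filter (fun x => σ x = 1)).filter (fun x => u 0 g ≤ u 0 x)).card + 1
      rw [filter_comm, filter_comm (fun x => σ x = 1)]
      exact hT1 _
    · show ((univ.filter (fun x => σ x = 1)).filter (fun x => u 1 g ≤ u 1 x)).card ≤
        ((univ.filter (fun x => σ x = -1)).filter (fun x => u 1 g ≤ u 1 x)).card + 1
      rw [filter_comm, filter_comm (fun x => σ x = -1)]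
      exact hT2 _
    · exact Nat.le_succ _
  · -- EF1 for the common valuation
    have self : ∀ B : Finset M, B = ∅ ∨ ∃ g ∈ B, ∑ x ∈ B.erase g, v x ≤ ∑ x ∈ B, v x := by
      intro B
      rcases B.eq_empty_or_nonempty with h | ⟨g, hg⟩
      · exact Or.inl h
      · refine Or.inr ⟨g, hg, ?_⟩
        rw [← sum_erase_add _ _ hg]
        linarith [hv g]
    have envy : ∀ (B C : Finset M), (∑ x ∈ B, v x - ∑ x ∈ C, v x ≤ 0 ∨
        ∃ g ∈ B, ∑ x ∈ B, v x - ∑ x ∈ C, v x ≤ v g) →
        B = ∅ ∨ ∃ g ∈ B, ∑ x ∈ B.erase g, v x ≤ ∑ x ∈ C, v x := by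
      intro B C h
      rcases h with h | ⟨g, hg, h⟩
      · rcases B.eq_empty_or_nonempty with h' | ⟨g, hg⟩
        · exact Or.inl h'
        · refine Or.inr ⟨g, hg, ?_⟩
          have := sum_erase_add B v hg
          linarith [hv g]
      · refine Or.inr ⟨g, hg, ?_⟩
        have := sum_erase_add B v hg
        linarith
    intro i j
    fin_cases i <;> fin_cases j
    · exact self _
    · -- agent 0 looks at the bundle of agent 1
      apply envy (univ.filter (fun x => σ x = -1)) (univ.filter (fun x => σ x = 1))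
      rcases h4 with h | ⟨g, hg, h⟩
      · left
        linarith
      · by_cases hp : ∑ x ∈ univ.filter (fun x => σ x = -1), v x -
            ∑ x ∈ univ.filter (fun x => σ x = 1), v x ≤ 0
        · exact Or.inl hp
        · right
          rcases g with x | c
          · refine ⟨x, mem_filter.2 ⟨mem_univ _, hg⟩, ?_⟩
            have h' : _ ≤ v x := h
            linarith
          · exfalso
            have h' : _ ≤ (0 : ℝ) := h
            linarith
    · apply envy (univ.filter (fun x => σ x = 1)) (univ.filter (fun x => σ x = -1))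
      rcases h3 with h | ⟨g, hg, h⟩
      · left
        linarith
      · by_cases hp : ∑ x ∈ univ.filter (fun x => σ x = 1), v x -
            ∑ x ∈ univ.filter (fun x => σ x = -1), v x ≤ 0
        · exact Or.inl hp
        · right
          rcases g with x | c
          · refine ⟨x, mem_filter.2 ⟨mem_univ _, hg⟩, ?_⟩
            exact h
          · exfalso
            have h' : _ ≤ (0 : ℝ) := h
            linarith
    · exact self _

end Pool.Agent.Results.MP_d51325_lc.TwoAgents
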